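import Pool.Agent.SvS.MainF

/-!
MP_7fa120_al: the solvable subgroups of the symmetric groups; the negated form of Q1 holds for them.
-/

set_option autoImplicit false

namespace Pool.Agent.Results.MP_7fa120_al.SolvableSubgroups

open Filter Topology Pool.Agent.SvS

theorem result :
    (∀ a : ℕ, Tendsto (fun n : ℕ => dens n (2 ^ a)) atTop (𝓝 1)) ∧
    Tendsto (fun n : ℕ => (Pool.Agent.NilS.nTwo (2 * n) : ℝ) / nSol (2 * n)) atTop (𝓝 1) ∧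
    (∀ m : ℕ, (∀ a : ℕ, m ≠ 2 ^ a) → Tendsto (fun n : ℕ => dens (2 * n) m) atTop (𝓝 0)) ∧
    (∀ ε : ℝ, 0 < ε → ∀ᶠ n : ℕ in atTop, n % 4 = 3 →
      (1 / 4 - ε) * (nSol n : ℝ) ≤ (nSol n : ℝ) - Pool.Agent.NilS.nTwo n) ∧
    ∃ r : ℕ, r.Prime ∧ r ≠ 2 ∧ ¬ ∃ L : ℝ, Tendsto (fun n : ℕ => dens n r) atTop (𝓝 L) :=
  ⟨dens_two, sol_two, dens_even, sol_odd, sol_no_limit⟩

end Pool.Agent.Results.MP_7fa120_al.SolvableSubgroups
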